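import Pool.Agent.LUB.Stmts

/-!
# LUB, row CST: algebraic constants
-/

set_option autoImplicit false

open Polynomial

namespace Pool.Agent.LUB.H32

theorem der_rat {Ω : Type} [Field Ω] [CharZero Ω] (D : Derivation ℤ Ω Ω) (q : ℚ) :
    D (algebraMap ℚ Ω q) = 0 := by
  have hd : ((q.den : ℕ) : Ω) ≠ 0 := by exact_mod_cast q.den_nz
  have h1 : ((q.den : ℕ) : Ω) * algebraMap ℚ Ω q = ((q.num : ℤ) : Ω) := by
    have h := congrArg (algebraMap ℚ Ω) (Rat.den_mul_eq_num q)
    rw [map_mul, map_natCast, map_intCast] at h
    exact h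
  have h2 := congrArg D h1
  rw [Derivation.leibniz, Derivation.map_natCast, smul_zero, add_zero] at h2
  have h3 : D ((q.num : ℤ) : Ω) = 0 := by
    have h4 := D.map_algebraMap q.num
    rw [eq_intCast] at h4
    exact h4
  rw [h3, smul_eq_mul] at h2
  exact (mul_eq_zero.1 h2).resolve_left hd

theorem der_inv_zero {Ω : Type} [Field Ω] (D : Derivation ℤ Ω Ω) (x : Ω) (h : D x = 0) :
    D x⁻¹ = 0 := by
  rw [Derivation.leibniz_inv, h, smul_zero]

theorem cst : CstStmt := by
  intro Ω _ _ D T x hT hx hDx
  by_contra hnx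
  have htx : Transcendental ℚ x := hnx
  have hxT : IsAlgebraic (Algebra.adjoin ℚ {T}) x := IntermediateField.isAlgebraic_adjoin_iff.1 hx
  -- `T` is algebraic over `ℚ(x)`
  have h1 : IsAlgebraic (Algebra.adjoin ℚ {x}) T := by
    by_contra hc
    have hc' : Transcendental (Algebra.adjoin ℚ {x}) T := hc
    have hind : AlgebraicIndepOn ℚ (id : Ω → Ω) {x} := by
      have := (algebraicIndependent_singleton_iff (R := ℚ) (x := fun i : ({x} : Set Ω) => (i : Ω))
        ⟨x, rfl⟩).2 htx
      exact this
    have hind2 : AlgebraicIndepOn ℚ (id : Ω → Ω) (insert T {x}) := by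
      apply hind.insert
      rw [Set.image_id]
      exact hc'
    have hne : x ≠ T := by
      intro he
      rw [he] at hDx
      exact hT hDx
    have hpair : (insert T {x} : Set Ω) = insert x {T} := Set.pair_comm T x
    rw [hpair] at hind2
    have h3 := ((AlgebraicIndepOn.insert_iff (R := ℚ) (x := (id : Ω → Ω)) (s := {T}) (i := x)
      (by simpa using hne)).1 hind2).2
    apply h3
    rw [Set.image_id]
    exact hxT
  have h2 : IsAlgebraic (IntermediateField.adjoin ℚ {x}) T :=
    IntermediateField.isAlgebraic_adjoin_iff.2 h1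
  -- all elements of `ℚ(x)` are constants
  have hk : ∀ c : IntermediateField.adjoin ℚ {x}, D (c : Ω) = 0 := by
    intro c
    refine IntermediateField.adjoin_induction (F := ℚ) (s := {x}) (p := fun y _ => D y = 0)
      ?_ ?_ ?_ ?_ ?_ c.2
    · intro y hy
      rw [Set.mem_singleton_iff.1 hy]
      exact hDx
    · intro q
      exact der_rat D q
    · intro a b _ _ ha hb
      rw [map_add, ha, hb, add_zero]
    · intro a _ ha
      exact der_inv_zero D a ha
    · intro a b _ _ ha hb
      rw [Derivation.leibniz, ha, hb, smul_zero, smul_zero, add_zero]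
  let D' : Derivation (IntermediateField.adjoin ℚ {x}) Ω Ω := Derivation.mk'
    { toFun := D
      map_add' := fun a b => D.map_add a b
      map_smul' := fun c a => by
        have : c • a = (c : Ω) * a := rfl
        rw [this, Derivation.leibniz, hk c, smul_zero, add_zero]
        rfl }
    (fun a b => D.leibniz a b)
  have h3 := D'.map_aeval (minpoly (IntermediateField.adjoin ℚ {x}) T) T
  rw [minpoly.aeval, map_zero, smul_eq_mul] at h3
  have h4 : aeval T (derivative (minpoly (IntermediateField.adjoin ℚ {x}) T)) ≠ 0 :=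
    (Irreducible.separable (minpoly.irreducible h2.isIntegral)).aeval_derivative_ne_zero
      (minpoly.aeval _ _)
  exact hT ((mul_eq_zero.1 h3.symm).resolve_left h4)

end Pool.Agent.LUB.H32
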