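import Pool.Agent.LUB.Stmts

/-!
# LUB, row SPH: specialization of an integral extension of `ℤ[T]`
-/

set_option autoImplicit false

open Polynomial

namespace Pool.Agent.LUB.H32

/-- Homomorphisms to `ℂ` extend to integral extensions. -/
theorem extend_hom {A B : Type} [CommRing A] [CommRing B] [IsDomain B] [Algebra A B]
    [Algebra.IsIntegral A B] (hinj : Function.Injective (algebraMap A B)) (s₀ : A →+* ℂ) :
    ∃ s : B →+* ℂ, ∀ a, s (algebraMap A B a) = s₀ a := by
  have hP : (RingHom.ker s₀).IsPrime := RingHom.ker_isPrime s₀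
  obtain ⟨Q, hQ, hQP⟩ := Ideal.exists_ideal_over_prime_of_isIntegral_of_isDomain (S := B)
    (RingHom.ker s₀) (by
      intro a ha
      have h0 : a = 0 := by
        apply hinj
        rw [RingHom.mem_ker] at ha
        rw [ha, map_zero]
      rw [h0]
      exact Ideal.zero_mem _)
  have hmem : ∀ a, a ∈ Q.comap (algebraMap A B) → s₀ a = 0 := by
    intro a ha
    rw [hQP] at ha
    exact ha
  have hR : IsDomain (A ⧸ Q.comap (algebraMap A B)) :=
    (Ideal.Quotient.isDomain_iff_prime _).2 (by rw [hQP]; exact hP)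
  have hS : IsDomain (B ⧸ Q) := (Ideal.Quotient.isDomain_iff_prime _).2 hQ
  let : Algebra (A ⧸ Q.comap (algebraMap A B)) ℂ :=
    (Ideal.Quotient.lift (Q.comap (algebraMap A B)) s₀ hmem).toAlgebra
  have hjC : Function.Injective (algebraMap (A ⧸ Q.comap (algebraMap A B)) ℂ) := by
    rw [injective_iff_map_eq_zero]
    intro a ha
    obtain ⟨a, rfl⟩ := Ideal.Quotient.mk_surjective a
    have h1 : s₀ a = 0 := ha
    rw [Ideal.Quotient.eq_zero_iff_mem, hQP]
    exact h1
  have hjS : Function.Injective (algebraMap (A ⧸ Q.comap (algebraMap A B)) (B ⧸ Q)) :=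
    Ideal.algebraMap_quotient_injective
  have t1 : Module.IsTorsionFree (A ⧸ Q.comap (algebraMap A B)) ℂ :=
    Module.isTorsionFree_iff_algebraMap_injective.2 hjC
  have t2 : Module.IsTorsionFree (A ⧸ Q.comap (algebraMap A B)) (B ⧸ Q) :=
    Module.isTorsionFree_iff_algebraMap_injective.2 hjS
  have hint : Algebra.IsIntegral (A ⧸ Q.comap (algebraMap A B)) (B ⧸ Q) := inferInstance
  have halg : Algebra.IsAlgebraic (A ⧸ Q.comap (algebraMap A B)) (B ⧸ Q) := inferInstance
  let φ : (B ⧸ Q) →ₐ[A ⧸ Q.comap (algebraMap A B)] ℂ := IsAlgClosed.lift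
  refine ⟨(φ : (B ⧸ Q) →+* ℂ).comp (Ideal.Quotient.mk Q), fun a => ?_⟩
  have h1 := φ.commutes (Ideal.Quotient.mk _ a)
  exact h1

theorem sph : SphStmt := by
  intro Ω _ _ T hT n θ hθ t
  have hTZ : Transcendental ℤ T := by
    intro h
    exact hT (h.extendScalars (Rat.intCast_injective))
  have hTB : T ∈ Algebra.adjoin ℤ ({T} ∪ Set.range θ) := Algebra.subset_adjoin (by simp)
  have hle : Algebra.adjoin ℤ {T} ≤ Algebra.adjoin ℤ ({T} ∪ Set.range θ) :=
    Algebra.adjoin_mono Set.subset_union_left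
  let : Algebra (Algebra.adjoin ℤ {T}) (Algebra.adjoin ℤ ({T} ∪ Set.range θ)) :=
    (Subalgebra.inclusion hle).toRingHom.toAlgebra
  have htow : IsScalarTower (Algebra.adjoin ℤ {T}) (Algebra.adjoin ℤ ({T} ∪ Set.range θ)) Ω :=
    IsScalarTower.of_algebraMap_eq fun x => rfl
  have hall : Algebra.adjoin ℤ ({T} ∪ Set.range θ) ≤
      (integralClosure (Algebra.adjoin ℤ {T}) Ω).restrictScalars ℤ := by
    apply Algebra.adjoin_le
    rintro x (hx | ⟨j, rfl⟩)
    · rw [Set.mem_singleton_iff.1 hx]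
      exact isIntegral_algebraMap (R := Algebra.adjoin ℤ {T}) (A := Ω)
        (x := ⟨T, Algebra.self_mem_adjoin_singleton ℤ T⟩)
    · exact hθ j
  have hint : Algebra.IsIntegral (Algebra.adjoin ℤ {T})
      (Algebra.adjoin ℤ ({T} ∪ Set.range θ)) := by
    constructor
    intro b
    have h1 : IsIntegral (Algebra.adjoin ℤ {T}) (algebraMap (Algebra.adjoin ℤ
      ({T} ∪ Set.range θ)) Ω b) := hall b.2
    exact (isIntegral_algebraMap_iff Subtype.val_injective).1 h1
  have hinj : Function.Injective (algebraMap (Algebra.adjoin ℤ {T})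
      (Algebra.adjoin ℤ ({T} ∪ Set.range θ))) := Subalgebra.inclusion_injective hle
  let s₀ : Algebra.adjoin ℤ {T} →+* ℂ :=
    (eval₂RingHom (Int.castRingHom ℂ) (t : ℂ)).comp
      (algEquivOfTranscendental ℤ T hTZ).symm.toRingEquiv.toRingHom
  obtain ⟨s, hs⟩ := extend_hom hinj s₀
  refine ⟨s, ?_⟩
  have h1 := hs ⟨T, Algebra.self_mem_adjoin_singleton ℤ T⟩
  have h2 : (algEquivOfTranscendental ℤ T hTZ).symm ⟨T, Algebra.self_mem_adjoin_singleton ℤ T⟩
      = X := by
    rw [AlgEquiv.symm_apply_eq, algEquivOfTranscendental_apply_X]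
  have h3 : s₀ ⟨T, Algebra.self_mem_adjoin_singleton ℤ T⟩ = (t : ℂ) := by
    change eval₂ (Int.castRingHom ℂ) (t : ℂ) ((algEquivOfTranscendental ℤ T hTZ).symm
      ⟨T, Algebra.self_mem_adjoin_singleton ℤ T⟩) = (t : ℂ)
    rw [h2, eval₂_X]
  rw [h3] at h1
  exact h1

end Pool.Agent.LUB.H32
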